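import Pool.Agent.LA94.Ins

set_option autoImplicit false
open Filter Topology Metric

namespace Pool.Agent.Results.MP_10e324_an.UnivalentAtoms

/-- The open unit disc of the complex plane. -/
def disc : Set ℂ := ball (0 : ℂ) 1

/-- `h` has the L-property on the sequence `z`: for every compact subset `K` of the range
`h(disc)`, only finitely many of the points `h (z n)` lie in `K`. -/
def HasLProperty (h : ℂ → ℂ) (z : ℕ → ℂ) : Prop :=
  ∀ K : Set ℂ, IsCompact K → K ⊆ h '' disc → {n : ℕ | h (z n) ∈ K}.Finite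

/-- `f, g` is an ordered L-pair: `g` has the L-property on every sequence in the disc whose
moduli tend to `1` and on which `f` has the L-property. -/
def IsOrderedLPair (f g : ℂ → ℂ) : Prop :=
  ∀ z : ℕ → ℂ, (∀ n, z n ∈ disc) → Tendsto (fun n => ‖z n‖) atTop (𝓝 1) →
    HasLProperty f z → HasLProperty g z

/-- `α` is an L-atom: it is analytic and non-constant on the disc, and every analytic `f` such
that `f, α` is an ordered L-pair is `φ ∘ α` on the disc for some `φ` analytic on `α(disc)`. -/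
def IsLAtom (α : ℂ → ℂ) : Prop :=
  AnalyticOnNhd ℂ α disc ∧ (∃ a ∈ disc, ∃ b ∈ disc, α a ≠ α b) ∧
    ∀ f : ℂ → ℂ, AnalyticOnNhd ℂ f disc → IsOrderedLPair f α →
      ∃ φ : ℂ → ℂ, AnalyticOnNhd ℂ φ (α '' disc) ∧ ∀ z ∈ disc, f z = φ (α z)

/-- The L-atoms are exactly the univalent functions; moreover, every non-constant analytic
function `α` has a partner `f`, analytic on the disc and with range all of `ℂ`, such that
`f, α` is an ordered L-pair and `f z - f w = z - w` whenever `α z = α w` (so `f` is not even a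
set-theoretic function of `α` unless `α` is injective). -/
theorem result :
    (∀ α : ℂ → ℂ, IsLAtom α ↔ (AnalyticOnNhd ℂ α disc ∧ Set.InjOn α disc)) ∧
    (∀ α : ℂ → ℂ, AnalyticOnNhd ℂ α disc → (∃ a ∈ disc, ∃ b ∈ disc, α a ≠ α b) →
      ∃ f : ℂ → ℂ, AnalyticOnNhd ℂ f disc ∧ f '' disc = Set.univ ∧ IsOrderedLPair f α ∧
        ∀ z ∈ disc, ∀ w ∈ disc, α z = α w → f z - f w = z - w) := by
  have key : ∀ α : ℂ → ℂ, AnalyticOnNhd ℂ α disc → (∃ a ∈ disc, ∃ b ∈ disc, α a ≠ α b) →
      ∃ f : ℂ → ℂ, AnalyticOnNhd ℂ f disc ∧ f '' disc = Set.univ ∧ IsOrderedLPair f α ∧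
        ∀ z ∈ disc, ∀ w ∈ disc, α z = α w → f z - f w = z - w := by
    intro α hα hnc
    obtain ⟨m, hm, hmunb⟩ := Pool.Agent.LA94.exists_unb α hα hnc
    have hβ : AnalyticOnNhd ℂ (m ∘ α) (ball (0:ℂ) 1) := fun x hx =>
      (hm (α x) (Set.mem_image_of_mem α hx)).comp (hα x hx)
    obtain ⟨φ, hφ, hsurj⟩ := Pool.Agent.LA94.surj (m ∘ α) hβ hmunb
    have hfan : AnalyticOnNhd ℂ (fun x => φ (m (α x)) + x) disc := by
      intro x hx
      exact ((hφ.analyticAt _).comp (hβ x hx)).add analyticAt_id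
    refine ⟨fun x => φ (m (α x)) + x, hfan, ?_, ?_, ?_⟩
    · rw [Set.eq_univ_iff_forall]
      intro v
      obtain ⟨x, hx, hxv⟩ := hsurj v
      exact ⟨x, hx, hxv⟩
    · intro z hz _ hfL K hKc hK
      have hcont : ContinuousOn (fun w => φ (m w)) K := by
        intro w hw
        exact (hφ.continuous.continuousAt.comp
          (hm w (hK hw)).continuousAt).continuousWithinAt
      obtain ⟨B, hB⟩ := hKc.exists_bound_of_continuousOn hcont
      have hfin := hfL (closedBall 0 (B + 1)) (isCompact_closedBall _ _) (by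
        intro v _
        obtain ⟨x, hx, hxv⟩ := hsurj v
        exact ⟨x, hx, hxv⟩)
      refine hfin.subset ?_
      intro n hn
      have hn' : α (z n) ∈ K := hn
      have hgoal : φ (m (α (z n))) + z n ∈ closedBall (0 : ℂ) (B + 1) := by
        rw [mem_closedBall_zero_iff]
        calc _ ≤ ‖φ (m (α (z n)))‖ + ‖z n‖ := norm_add_le _ _
          _ ≤ B + 1 := by
            have h1 := hB (α (z n)) hn'
            have h2 := hz n
            rw [disc, mem_ball_zero_iff] at h2
            linarith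
      exact hgoal
    · intro z _ w _ hzw
      simp only [hzw]
      ring
  refine ⟨?_, key⟩
  intro α
  constructor
  · rintro ⟨hα, hnc, hL⟩
    refine ⟨hα, ?_⟩
    obtain ⟨f, hfan, _, hpair, hsep⟩ := key α hα hnc
    obtain ⟨ψ, _, hψ⟩ := hL f hfan hpair
    intro a ha b hb hab
    have h1 := hψ a ha
    have h2 := hψ b hb
    have h3 := hsep a ha b hb hab
    rw [hab] at h1
    rw [h1, h2, sub_self] at h3
    exact sub_eq_zero.mp h3.symm
  · rintro ⟨hα, hinj⟩
    have hnc : ∃ a ∈ disc, ∃ b ∈ disc, α a ≠ α b := by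
      refine ⟨0, by simp [disc], 1 / 2, ?_, ?_⟩
      · rw [disc, mem_ball_zero_iff]
        norm_num
      · intro h
        have h0 : (0 : ℂ) ∈ disc := by simp [disc]
        have h1 : (1 / 2 : ℂ) ∈ disc := by
          rw [disc, mem_ball_zero_iff]
          norm_num
        have := hinj h0 h1 h
        norm_num at this
    exact ⟨hα, hnc, fun f hf _ => Pool.Agent.LA94.inv_part α f hα hnc hinj hf⟩

end Pool.Agent.Results.MP_10e324_an.UnivalentAtoms
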